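import Mathlib
import Pool.Agent.W792.LL.Stm

set_option autoImplicit false

/-! Task LL-CON: properties of `uf`. -/

namespace Pool.Agent.W52.LL.Conv

open MeasureTheory Set
open Pool.Agent.W792.LL

noncomputable section

/-- the denominator -/
def den (lam : ℝ) (z : ℂ) (t a : ℝ) : ℂ := (t : ℂ) + (a : ℂ) - lam * Complex.I - z

/-- the resolvent -/
def rr (lam : ℝ) (z : ℂ) (t a : ℝ) : ℂ := 1 / den lam z t a

variable {lam : ℝ} {z : ℂ}

theorem den_im (lam : ℝ) (z : ℂ) (t a : ℝ) : (den lam z t a).im = -(lam + z.im) := by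
  simp [den]
  ring

theorem den_norm (hl : 0 < lam) (hz : 0 ≤ z.im) (t a : ℝ) : lam ≤ ‖den lam z t a‖ := by
  have h := Complex.abs_im_le_norm (den lam z t a)
  rw [den_im, abs_neg, abs_of_pos (by linarith)] at h
  linarith

theorem den_ne (hl : 0 < lam) (hz : 0 ≤ z.im) (t a : ℝ) : den lam z t a ≠ 0 := by
  intro h
  have := den_norm hl hz t a
  rw [h, norm_zero] at this
  linarith

theorem rr_norm (hl : 0 < lam) (hz : 0 ≤ z.im) (t a : ℝ) : ‖rr lam z t a‖ ≤ 1 / lam := by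
  unfold rr
  rw [norm_div, norm_one]
  exact one_div_le_one_div_of_le hl (den_norm hl hz t a)

theorem rr_im (t a : ℝ) :
    (rr lam z t a).im = (lam + z.im) * ‖rr lam z t a‖ ^ 2 := by
  unfold rr
  rw [one_div, Complex.inv_im, den_im, norm_inv, inv_pow, ← Complex.normSq_eq_norm_sq, neg_neg,
    div_eq_mul_inv]

theorem rr_sub (hl : 0 < lam) {z' : ℂ} (hz : 0 ≤ z.im) (hz' : 0 ≤ z'.im) (t a t' a' : ℝ) :
    rr lam z t a - rr lam z' t' a' =
      (((t' + a' - (t + a) : ℝ) : ℂ) + (z - z')) * (rr lam z t a * rr lam z' t' a') := by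
  have h1 := den_ne hl hz t a
  have h2 := den_ne hl hz' t' a'
  unfold rr
  field_simp
  unfold den
  push_cast
  ring

theorem rr_cont (hl : 0 < lam) (hz : 0 ≤ z.im) (t : ℝ) : Continuous fun a => rr lam z t a := by
  unfold rr
  refine continuous_const.div ?_ fun a => den_ne hl hz t a
  unfold den
  fun_prop

theorem uf_eq (ρ : Measure ℝ) (t : ℝ) :
    uf ρ lam z t = 1 + 2 * lam * Complex.I * ∫ a, rr lam z t a ∂ρ := rfl

theorem rr_int (hl : 0 < lam) (hz : 0 ≤ z.im) (ρ : Measure ℝ) [IsProbabilityMeasure ρ] (t : ℝ) :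
    Integrable (fun a => rr lam z t a) ρ :=
  Integrable.of_bound (rr_cont hl hz t).aestronglyMeasurable (1 / lam)
    (Filter.Eventually.of_forall fun a => rr_norm hl hz t a)

theorem rr_sq_int (hl : 0 < lam) (hz : 0 ≤ z.im) (ρ : Measure ℝ) [IsProbabilityMeasure ρ]
    (t : ℝ) : Integrable (fun a => ‖rr lam z t a‖ ^ 2) ρ :=
  Integrable.of_bound ((rr_cont hl hz t).norm.pow 2).aestronglyMeasurable ((1 / lam) ^ 2)
    (Filter.Eventually.of_forall fun a => by
      rw [Real.norm_eq_abs, abs_of_nonneg (sq_nonneg _)]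
      exact pow_le_pow_left₀ (norm_nonneg _) (rr_norm hl hz t a) 2)

/-- the basic identity -/
theorem uf_sq (hl : 0 < lam) (hz : 0 ≤ z.im) (ρ : Measure ℝ) [IsProbabilityMeasure ρ] (t : ℝ) :
    ‖uf ρ lam z t‖ ^ 2 = 1 - 4 * lam * ((lam + z.im) * ∫ a, ‖rr lam z t a‖ ^ 2 ∂ρ) +
      4 * lam ^ 2 * ‖∫ a, rr lam z t a ∂ρ‖ ^ 2 := by
  have him : (∫ a, rr lam z t a ∂ρ).im = (lam + z.im) * ∫ a, ‖rr lam z t a‖ ^ 2 ∂ρ := by
    have h1 := Complex.imCLM.integral_comp_comm (rr_int hl hz ρ t)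
    rw [Complex.imCLM_apply] at h1
    rw [← h1, ← integral_const_mul]
    exact integral_congr_ae (Filter.Eventually.of_forall fun a => rr_im t a)
  rw [uf_eq, ← him]
  set R := ∫ a, rr lam z t a ∂ρ
  rw [← Complex.normSq_eq_norm_sq, ← Complex.normSq_eq_norm_sq, Complex.normSq_apply,
    Complex.normSq_apply]
  simp
  ring

/-- variance -/
theorem var_eq (hl : 0 < lam) (hz : 0 ≤ z.im) (ρ : Measure ℝ) [IsProbabilityMeasure ρ] (t : ℝ) :
    ∫ a, ‖rr lam z t a - ∫ b, rr lam z t b ∂ρ‖ ^ 2 ∂ρ =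
      (∫ a, ‖rr lam z t a‖ ^ 2 ∂ρ) - ‖∫ a, rr lam z t a ∂ρ‖ ^ 2 := by
  set c := ∫ a, rr lam z t a ∂ρ with hc
  have h1 : ∀ a, ‖rr lam z t a - c‖ ^ 2 = ‖rr lam z t a‖ ^ 2 -
      2 * (rr lam z t a * (starRingEnd ℂ) c).re + ‖c‖ ^ 2 := by
    intro a
    rw [← Complex.normSq_eq_norm_sq, ← Complex.normSq_eq_norm_sq, ← Complex.normSq_eq_norm_sq,
      Complex.normSq_sub]
    ring
  have hi1 := rr_sq_int hl hz ρ t
  have hi0 : Integrable (fun a => rr lam z t a * (starRingEnd ℂ) c) ρ :=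
    (rr_int hl hz ρ t).mul_const _
  have hi2 : Integrable (fun a => 2 * (rr lam z t a * (starRingEnd ℂ) c).re) ρ :=
    hi0.re.const_mul 2
  have hi12 : Integrable (fun a => ‖rr lam z t a‖ ^ 2 -
      2 * (rr lam z t a * (starRingEnd ℂ) c).re) ρ := hi1.sub hi2
  have h2 : ∫ a, (rr lam z t a * (starRingEnd ℂ) c).re ∂ρ = ‖c‖ ^ 2 := by
    have h3 := Complex.reCLM.integral_comp_comm hi0
    rw [Complex.reCLM_apply, integral_mul_const, ← hc] at h3
    have h4 : (c * (starRingEnd ℂ) c).re = ‖c‖ ^ 2 := by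
      rw [Complex.mul_conj, Complex.ofReal_re, Complex.normSq_eq_norm_sq]
    rw [h4] at h3
    exact h3
  rw [integral_congr_ae (Filter.Eventually.of_forall h1),
    integral_add hi12 (integrable_const _), integral_sub hi1 hi2, integral_const_mul, h2,
    integral_const]
  simp
  ring

theorem uf_le (hl : 0 < lam) (hz : 0 ≤ z.im) (ρ : Measure ℝ) [IsProbabilityMeasure ρ] (t : ℝ) :
    ‖uf ρ lam z t‖ ^ 2 ≤ 1 - 4 * lam ^ 2 *
      ∫ a, ‖rr lam z t a - ∫ b, rr lam z t b ∂ρ‖ ^ 2 ∂ρ := by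
  rw [uf_sq hl hz ρ t, var_eq hl hz ρ t]
  have h0 : 0 ≤ ∫ a, ‖rr lam z t a‖ ^ 2 ∂ρ := integral_nonneg fun a => sq_nonneg _
  nlinarith [mul_nonneg (mul_nonneg hl.le hz) h0]

theorem uf_le_one (hl : 0 < lam) (hz : 0 ≤ z.im) (ρ : Measure ℝ) [IsProbabilityMeasure ρ]
    (t : ℝ) : ‖uf ρ lam z t‖ ≤ 1 := by
  have h1 := uf_le hl hz ρ t
  have h2 : 0 ≤ ∫ a, ‖rr lam z t a - ∫ b, rr lam z t b ∂ρ‖ ^ 2 ∂ρ :=
    integral_nonneg fun a => sq_nonneg _
  have h3 : ‖uf ρ lam z t‖ ^ 2 ≤ 1 := by nlinarith [sq_nonneg lam]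
  exact (sq_le_one_iff₀ (norm_nonneg _)).1 h3

/-- Lipschitz bound in all the variables -/
theorem uf_lip (hl : 0 < lam) {z' : ℂ} (hz : 0 ≤ z.im) (hz' : 0 ≤ z'.im) (ρ : Measure ℝ)
    [IsProbabilityMeasure ρ] (t t' : ℝ) :
    ‖uf ρ lam z t - uf ρ lam z' t'‖ ≤ 2 / lam * ‖((t' - t : ℝ) : ℂ) + (z - z')‖ := by
  rw [uf_eq, uf_eq]
  have h1 : (1 + 2 * (lam : ℂ) * Complex.I * ∫ a, rr lam z t a ∂ρ) -
      (1 + 2 * (lam : ℂ) * Complex.I * ∫ a, rr lam z' t' a ∂ρ) =
      2 * (lam : ℂ) * Complex.I * ∫ a, (rr lam z t a - rr lam z' t' a) ∂ρ := by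
    rw [integral_sub (rr_int hl hz ρ t) (rr_int hl hz' ρ t')]
    ring
  rw [h1, norm_mul, norm_mul, norm_mul, Complex.norm_I, Complex.norm_real, Real.norm_eq_abs,
    abs_of_pos hl]
  have h2 : ‖∫ a, (rr lam z t a - rr lam z' t' a) ∂ρ‖ ≤
      ‖((t' - t : ℝ) : ℂ) + (z - z')‖ * (1 / lam * (1 / lam)) := by
    have h3 := norm_integral_le_of_norm_le_const (μ := ρ)
      (f := fun a => rr lam z t a - rr lam z' t' a)
      (C := ‖((t' - t : ℝ) : ℂ) + (z - z')‖ * (1 / lam * (1 / lam)))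
      (Filter.Eventually.of_forall fun a => by
        rw [rr_sub hl hz hz', norm_mul, norm_mul]
        have e : ((t' + a - (t + a) : ℝ) : ℂ) = ((t' - t : ℝ) : ℂ) := by
          push_cast
          ring
        rw [e]
        refine mul_le_mul_of_nonneg_left ?_ (norm_nonneg _)
        exact mul_le_mul (rr_norm hl hz t a) (rr_norm hl hz' t' a) (norm_nonneg _)
          (by positivity))
    simpa using h3
  have h4 : ‖(2 : ℂ)‖ = 2 := by simp
  rw [h4]
  calc 2 * lam * 1 * ‖∫ a, (rr lam z t a - rr lam z' t' a) ∂ρ‖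
      ≤ 2 * lam * 1 * (‖((t' - t : ℝ) : ℂ) + (z - z')‖ * (1 / lam * (1 / lam))) :=
        mul_le_mul_of_nonneg_left h2 (by positivity)
    _ = _ := by field_simp

theorem uf_lip_t (hl : 0 < lam) (hz : 0 ≤ z.im) (ρ : Measure ℝ) [IsProbabilityMeasure ρ]
    (t t' : ℝ) : ‖uf ρ lam z t - uf ρ lam z t'‖ ≤ 2 / lam * |t - t'| := by
  have h := uf_lip hl hz hz ρ t t'
  rw [sub_self, add_zero, Complex.norm_real, Real.norm_eq_abs, abs_sub_comm] at h
  exact h

theorem uf_cont (hl : 0 < lam) (hz : 0 ≤ z.im) (ρ : Measure ℝ) [IsProbabilityMeasure ρ] :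
    Continuous (uf ρ lam z) := by
  have h : LipschitzWith (Real.toNNReal (2 / lam)) (uf ρ lam z) := by
    refine LipschitzWith.of_dist_le_mul fun t t' => ?_
    rw [dist_eq_norm, Real.dist_eq, Real.coe_toNNReal _ (by positivity)]
    exact uf_lip_t hl hz ρ t t'
  exact h.continuous

/-! ### the arc measure -/

theorem arc_meas (s : ℝ) : Measurable (fun φ : ℝ => s * Real.cos (2 * Real.pi * φ)) := by
  fun_prop

instance vol_prob : IsProbabilityMeasure (volume.restrict (Set.Ioc (0 : ℝ) 1)) :=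
  ⟨by simp⟩

instance arc_prob (s : ℝ) : IsProbabilityMeasure (arc s) := by
  unfold arc
  exact Measure.isProbabilityMeasure_map (arc_meas s).aemeasurable

theorem arc_int {E : Type} [NormedAddCommGroup E] [NormedSpace ℝ E] (s : ℝ) (f : ℝ → E)
    (hf : Continuous f) : ∫ x, f x ∂(arc s) =
      ∫ φ in Set.Ioc (0 : ℝ) 1, f (s * Real.cos (2 * Real.pi * φ)) := by
  unfold arc
  exact integral_map (arc_meas s).aemeasurable hf.aestronglyMeasurable

theorem arc_le {s : ℝ} (hs : 0 ≤ s) (φ : ℝ) : |s * Real.cos (2 * Real.pi * φ)| ≤ s := by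
  rw [abs_mul, abs_of_nonneg hs]
  have := Real.abs_cos_le_one (2 * Real.pi * φ)
  nlinarith

theorem arc_supp {s : ℝ} (hs : 0 ≤ s) : ∀ᵐ x ∂(arc s), |x| ≤ s := by
  unfold arc
  rw [ae_map_iff (arc_meas s).aemeasurable
    (measurableSet_le (by fun_prop) measurable_const)]
  exact Filter.Eventually.of_forall fun φ => arc_le hs φ

theorem supp_ae {ρ : Measure ℝ} {C : ℝ} (h : ρ (Set.Icc (-C) C)ᶜ = 0) : ∀ᵐ x ∂ρ, |x| ≤ C := by
  have h1 : ∀ᵐ x ∂ρ, x ∈ Set.Icc (-C) C := by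
    rw [ae_iff]
    exact h
  filter_upwards [h1] with x hx
  exact abs_le.2 hx

theorem conv_supp {s C : ℝ} (hs : 0 ≤ s) (ρ : Measure ℝ) [IsProbabilityMeasure ρ]
    (h : ρ (Set.Icc (-C) C)ᶜ = 0) :
    ((arc s).conv ρ) (Set.Icc (-(s + C)) (s + C))ᶜ = 0 := by
  have hm : MeasurableSet (Set.Icc (-(s + C)) (s + C))ᶜ := measurableSet_Icc.compl
  unfold Measure.conv
  rw [Measure.map_apply (by fun_prop) hm, Measure.measure_prod_null
    (by exact (measurable_fst.add measurable_snd) hm)]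
  filter_upwards [arc_supp hs] with x hx
  have h2 := supp_ae h
  rw [ae_iff] at h2
  refine measure_mono_null ?_ h2
  intro p hp hp2
  apply hp
  rw [abs_le] at hx hp2
  exact ⟨by linarith [hx.1, hp2.1], by linarith [hx.2, hp2.2]⟩

theorem conv_int {E : Type} [NormedAddCommGroup E] [NormedSpace ℝ E] (s : ℝ) (ρ : Measure ℝ)
    [IsProbabilityMeasure ρ] (f : ℝ → E) (hf : Continuous f) (M : ℝ) (hM : ∀ x, ‖f x‖ ≤ M) :
    ∫ x, f x ∂((arc s).conv ρ) =
      ∫ p, (∫ φ in Set.Ioc (0 : ℝ) 1, f (p + s * Real.cos (2 * Real.pi * φ))) ∂ρ := by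
  rw [Measure.conv_comm, integral_conv
    (Integrable.of_bound hf.aestronglyMeasurable M (Filter.Eventually.of_forall hM))]
  refine integral_congr_ae (Filter.Eventually.of_forall fun p => ?_)
  exact arc_int s (fun x => f (p + x)) (by fun_prop)

theorem conv_int' {E : Type} [NormedAddCommGroup E] [NormedSpace ℝ E] (s : ℝ) (ρ : Measure ℝ)
    [IsProbabilityMeasure ρ] (f : ℝ → E) (hf : Continuous f) (M : ℝ) (hM : ∀ x, ‖f x‖ ≤ M) :
    ∫ x, f x ∂((arc s).conv ρ) =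
      ∫ x, (∫ p, f (x + p) ∂ρ) ∂(arc s) :=
  integral_conv
    (Integrable.of_bound hf.aestronglyMeasurable M (Filter.Eventually.of_forall hM))

theorem uf_shift (ρ : Measure ℝ) (t x : ℝ) :
    uf ρ lam z (t + x) = 1 + 2 * lam * Complex.I * ∫ p, rr lam z t (x + p) ∂ρ := by
  rw [uf_eq]
  congr 2
  refine integral_congr_ae (Filter.Eventually.of_forall fun p => ?_)
  unfold rr den
  push_cast
  ring_nf

theorem uf_conv (hl : 0 < lam) (hz : 0 ≤ z.im) (ρ : Measure ℝ) [IsProbabilityMeasure ρ]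
    (s t : ℝ) : uf ((arc s).conv ρ) lam z t =
      ∫ φ in Set.Ioc (0 : ℝ) 1, uf ρ lam z (t + s * Real.cos (2 * Real.pi * φ)) := by
  have hc := uf_cont hl hz ρ
  rw [← arc_int s (fun x => uf ρ lam z (t + x)) (by fun_prop), uf_eq,
    conv_int' s ρ (fun a => rr lam z t a) (rr_cont hl hz t) (1 / lam) (rr_norm hl hz t)]
  have h1 : ∀ x, ∫ p, rr lam z t (x + p) ∂ρ =
      (uf ρ lam z (t + x) - 1) * (2 * lam * Complex.I)⁻¹ := by
    intro x
    rw [uf_shift]
    have hl' : (lam : ℂ) ≠ 0 := by exact_mod_cast hl.ne'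
    have hI := Complex.I_ne_zero
    field_simp
    ring
  have hi : Integrable (fun x => uf ρ lam z (t + x)) (arc s) :=
    Integrable.of_bound (Continuous.aestronglyMeasurable (by fun_prop)) 1
      (Filter.Eventually.of_forall fun x => uf_le_one hl hz ρ (t + x))
  have hone : ∫ _x : ℝ, (1 : ℂ) ∂(arc s) = 1 := by simp
  rw [integral_congr_ae (Filter.Eventually.of_forall h1), integral_mul_const,
    integral_sub hi (integrable_const _), hone]
  have hl' : (lam : ℂ) ≠ 0 := by exact_mod_cast hl.ne'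
  have hI := Complex.I_ne_zero
  have hne : (2 * lam * Complex.I : ℂ) ≠ 0 := mul_ne_zero (mul_ne_zero two_ne_zero hl') hI
  have e : ∀ X : ℂ, 1 + 2 * lam * Complex.I * ((X - 1) * (2 * lam * Complex.I)⁻¹) = X := by
    intro X
    rw [mul_comm (X - 1), ← mul_assoc, mul_inv_cancel₀ hne]
    ring
  exact e _

/-! ### the gap -/

theorem int_cos_sq (s : ℝ) :
    ∫ φ in (0 : ℝ)..1, (s * Real.cos (2 * Real.pi * φ)) ^ 2 = s ^ 2 / 2 := by
  have h1 : ∀ φ : ℝ, (s * Real.cos (2 * Real.pi * φ)) ^ 2 =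
      s ^ 2 * (fun x => Real.cos x ^ 2) (2 * Real.pi * φ) := fun φ => by ring
  have hp : (2 * Real.pi : ℝ) ≠ 0 := by positivity
  rw [intervalIntegral.integral_congr (fun φ _ => h1 φ), intervalIntegral.integral_const_mul,
    intervalIntegral.integral_comp_mul_left (fun x => Real.cos x ^ 2) hp, integral_cos_sq]
  have h2 : Real.sin (2 * Real.pi * 1) = 0 := by rw [mul_one]; exact Real.sin_two_pi
  have h3 : Real.sin (2 * Real.pi * 0) = 0 := by rw [mul_zero]; exact Real.sin_zero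
  rw [h2, h3, smul_eq_mul]
  field_simp
  ring

theorem shift_half (f : ℝ → ℝ) (hf : ∀ x, f (x + 1) = f x) :
    ∫ φ in (0 : ℝ)..1, f (φ + 1 / 2) = ∫ φ in (0 : ℝ)..1, f φ := by
  rw [intervalIntegral.integral_comp_add_right f (1 / 2)]
  have hp : Function.Periodic f 1 := hf
  have h1 := hp.intervalIntegral_add_eq (1 / 2) 0
  have e1 : (0 : ℝ) + 1 / 2 = 1 / 2 := by ring
  have e2 : (1 : ℝ) + 1 / 2 = 1 / 2 + 1 := by ring
  rw [e1, e2, h1, zero_add]

theorem gap_point (hl : 0 < lam) (hz : 0 ≤ z.im) (t p x D : ℝ) (c : ℂ)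
    (hD : |t| + |x| + |p| + lam + ‖z‖ ≤ D) :
    2 * x ^ 2 / D ^ 4 ≤ ‖rr lam z t (p + x) - c‖ ^ 2 + ‖rr lam z t (p + -x) - c‖ ^ 2 := by
  have hD0 : 0 < D := by
    have := abs_nonneg t
    have := abs_nonneg x
    have := abs_nonneg p
    have := norm_nonneg z
    linarith
  have hden : ∀ y, |y| ≤ |x| → 1 / D ≤ ‖rr lam z t (p + y)‖ := by
    intro y hy
    unfold rr
    rw [norm_div, norm_one]
    apply one_div_le_one_div_of_le
    · have := den_norm hl hz t (p + y)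
      linarith
    · refine le_trans ?_ hD
      unfold den
      have e : (t : ℂ) + ((p + y : ℝ) : ℂ) - lam * Complex.I - z =
          ((t + p + y : ℝ) : ℂ) - lam * Complex.I - z := by
        push_cast
        ring
      rw [e]
      have h1 := norm_sub_le (((t + p + y : ℝ) : ℂ) - lam * Complex.I) z
      have h2 := norm_sub_le ((t + p + y : ℝ) : ℂ) (lam * Complex.I)
      have h3 : ‖(lam : ℂ) * Complex.I‖ = lam := by
        rw [norm_mul, Complex.norm_I, mul_one, Complex.norm_real, Real.norm_eq_abs,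
          abs_of_pos hl]
      have h4 : ‖((t + p + y : ℝ) : ℂ)‖ ≤ |t| + |p| + |y| := by
        rw [Complex.norm_real, Real.norm_eq_abs]
        exact abs_add_three t p y
      linarith
  set A := rr lam z t (p + x) with hA
  set B := rr lam z t (p + -x) with hB
  have hA1 : 1 / D ≤ ‖A‖ := hden x le_rfl
  have hB1 : 1 / D ≤ ‖B‖ := hden (-x) (by rw [abs_neg])
  have hAB : ‖A - B‖ ≤ ‖A - c‖ + ‖B - c‖ := by
    have : A - B = (A - c) - (B - c) := by ring
    rw [this]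
    exact norm_sub_le _ _
  have hAB2 : ‖A - B‖ = 2 * |x| * (‖A‖ * ‖B‖) := by
    rw [hA, hB, rr_sub hl hz hz, norm_mul, norm_mul]
    congr 1
    rw [sub_self, add_zero, Complex.norm_real, Real.norm_eq_abs]
    have : t + (p + -x) - (t + (p + x)) = -(2 * x) := by ring
    rw [this, abs_neg, abs_mul, abs_two]
  have h1 : 2 * |x| * (1 / D * (1 / D)) ≤ ‖A - B‖ := by
    rw [hAB2]
    refine mul_le_mul_of_nonneg_left ?_ (by positivity)
    exact mul_le_mul hA1 hB1 (by positivity) (norm_nonneg _)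
  have h2 : 2 * |x| * (1 / D * (1 / D)) ≤ ‖A - c‖ + ‖B - c‖ := h1.trans hAB
  have h3 : (2 * |x| * (1 / D * (1 / D))) ^ 2 ≤ (‖A - c‖ + ‖B - c‖) ^ 2 :=
    pow_le_pow_left₀ (by positivity) h2 2
  have h4 : (2 * |x| * (1 / D * (1 / D))) ^ 2 = 2 * (2 * x ^ 2 / D ^ 4) := by
    rw [mul_pow, mul_pow, sq_abs]
    field_simp
  rw [h4] at h3
  nlinarith [sq_nonneg (‖A - c‖ - ‖B - c‖)]

theorem gap_inner (hl : 0 < lam) (hz : 0 ≤ z.im) (s C t p D : ℝ) (hs : 0 ≤ s) (c : ℂ)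
    (hp : |p| ≤ C) (hD : |t| + s + C + lam + ‖z‖ ≤ D) :
    s ^ 2 / (2 * D ^ 4) ≤
      ∫ φ in Set.Ioc (0 : ℝ) 1, ‖rr lam z t (p + s * Real.cos (2 * Real.pi * φ)) - c‖ ^ 2 := by
  rw [← intervalIntegral.integral_of_le zero_le_one]
  have hrc := rr_cont hl hz t
  set f : ℝ → ℝ := fun φ => ‖rr lam z t (p + s * Real.cos (2 * Real.pi * φ)) - c‖ ^ 2 with hf
  have hfc : Continuous f := by
    rw [hf]
    exact ((hrc.comp (by fun_prop : Continuous fun φ : ℝ =>
      p + s * Real.cos (2 * Real.pi * φ))).sub continuous_const).norm.pow 2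
  have hf1 : ∀ φ, f (φ + 1) = f φ := by
    intro φ
    have : Real.cos (2 * Real.pi * (φ + 1)) = Real.cos (2 * Real.pi * φ) := by
      have e : 2 * Real.pi * (φ + 1) = 2 * Real.pi * φ + 2 * Real.pi := by ring
      rw [e, Real.cos_add_two_pi]
    simp only [hf, this]
  have hf2 : ∀ φ, f (φ + 1 / 2) = ‖rr lam z t (p + -(s * Real.cos (2 * Real.pi * φ))) - c‖ ^ 2 := by
    intro φ
    have : Real.cos (2 * Real.pi * (φ + 1 / 2)) = -Real.cos (2 * Real.pi * φ) := by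
      have e : 2 * Real.pi * (φ + 1 / 2) = 2 * Real.pi * φ + Real.pi := by ring
      rw [e, Real.cos_add_pi]
    simp only [hf, this, mul_neg]
  have h1 := shift_half f hf1
  have hfc2 : Continuous fun φ => f (φ + 1 / 2) := hfc.comp (by fun_prop)
  have h2 : 2 * ∫ φ in (0 : ℝ)..1, f φ = ∫ φ in (0 : ℝ)..1, (f φ + f (φ + 1 / 2)) := by
    rw [intervalIntegral.integral_add (hfc.intervalIntegrable _ _)
      (hfc2.intervalIntegrable _ _), h1]
    ring
  have h3 : ∫ φ in (0 : ℝ)..1, (2 / D ^ 4) * (s * Real.cos (2 * Real.pi * φ)) ^ 2 ≤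
      ∫ φ in (0 : ℝ)..1, (f φ + f (φ + 1 / 2)) := by
    refine intervalIntegral.integral_mono_on zero_le_one
      (Continuous.intervalIntegrable (by fun_prop) _ _)
      ((hfc.add hfc2).intervalIntegrable _ _) fun φ _ => ?_
    rw [hf2 φ]
    have h4 := gap_point hl hz t p (s * Real.cos (2 * Real.pi * φ)) D c (by
      have := arc_le hs φ
      linarith)
    refine le_trans (le_of_eq ?_) h4
    ring
  rw [intervalIntegral.integral_const_mul, int_cos_sq, ← h2] at h3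
  have h5 : s ^ 2 / (2 * D ^ 4) * 2 = 2 / D ^ 4 * (s ^ 2 / 2) := by
    rcases eq_or_ne D 0 with h0 | h0
    · rw [h0]
      simp
    · field_simp
  linarith

theorem gap (hl : 0 < lam) (hz : 0 ≤ z.im) (ρ : Measure ℝ) [IsProbabilityMeasure ρ] (C : ℝ)
    (h : ρ (Set.Icc (-C) C)ᶜ = 0) (s t D : ℝ) (hs : 0 ≤ s)
    (hD : |t| + s + C + lam + ‖z‖ ≤ D) :
    ‖uf ((arc s).conv ρ) lam z t‖ ^ 2 ≤ 1 - 2 * lam ^ 2 * s ^ 2 / D ^ 4 := by
  have h1 := uf_le hl hz ((arc s).conv ρ) t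
  set c := ∫ b, rr lam z t b ∂((arc s).conv ρ) with hc
  have hrc := rr_cont hl hz t
  have hcont : Continuous fun a => ‖rr lam z t a - c‖ ^ 2 :=
    (hrc.sub continuous_const).norm.pow 2
  have hbd : ∀ a, ‖‖rr lam z t a - c‖ ^ 2‖ ≤ (1 / lam + ‖c‖) ^ 2 := by
    intro a
    rw [Real.norm_eq_abs, abs_of_nonneg (sq_nonneg _)]
    refine pow_le_pow_left₀ (norm_nonneg _) ?_ 2
    exact (norm_sub_le _ _).trans (add_le_add (rr_norm hl hz t a) le_rfl)
  have h2 : s ^ 2 / (2 * D ^ 4) ≤ ∫ a, ‖rr lam z t a - c‖ ^ 2 ∂((arc s).conv ρ) := by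
    rw [conv_int s ρ (fun a => ‖rr lam z t a - c‖ ^ 2) hcont _ hbd]
    have h3 : s ^ 2 / (2 * D ^ 4) = ∫ _p, s ^ 2 / (2 * D ^ 4) ∂ρ := by
      rw [integral_const]
      simp
    rw [h3]
    have hint : Integrable (fun p => ∫ φ in Set.Ioc (0 : ℝ) 1,
        ‖rr lam z t (p + s * Real.cos (2 * Real.pi * φ)) - c‖ ^ 2) ρ := by
      have h4 : Integrable (fun q : ℝ × ℝ =>
          ‖rr lam z t (q.1 + s * Real.cos (2 * Real.pi * q.2)) - c‖ ^ 2)
          (ρ.prod (volume.restrict (Set.Ioc (0 : ℝ) 1))) := by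
        refine Integrable.of_bound (Continuous.aestronglyMeasurable ?_)
          ((1 / lam + ‖c‖) ^ 2) (Filter.Eventually.of_forall fun q => hbd _)
        exact ((hrc.comp (by fun_prop : Continuous fun q : ℝ × ℝ =>
          q.1 + s * Real.cos (2 * Real.pi * q.2))).sub continuous_const).norm.pow 2
      exact h4.integral_prod_left
    refine integral_mono_ae (integrable_const _) hint ?_
    filter_upwards [supp_ae h] with p hp
    exact gap_inner hl hz s C t p D hs c hp hD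
  refine h1.trans ?_
  have h5 : 2 * lam ^ 2 * s ^ 2 / D ^ 4 = 4 * lam ^ 2 * (s ^ 2 / (2 * D ^ 4)) := by
    rcases eq_or_ne D 0 with h0 | h0
    · rw [h0]
      simp
    · field_simp
      ring
  rw [h5]
  have h6 := mul_le_mul_of_nonneg_left h2 (by positivity : (0 : ℝ) ≤ 4 * lam ^ 2)
  linarith

theorem dirac_gap (hl : 0 < lam) (hz : 0 ≤ z.im) (t D : ℝ) (hD : |t| + lam + ‖z‖ ≤ D) :
    ‖uf (Measure.dirac 0) lam z t‖ ^ 2 ≤ 1 - 4 * lam * z.im / D ^ 2 := by
  have hD0 : 0 < D := by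
    have := abs_nonneg t
    have := norm_nonneg z
    linarith
  rw [uf_sq hl hz (Measure.dirac 0) t, integral_dirac, integral_dirac]
  have h1 : 1 / D ≤ ‖rr lam z t 0‖ := by
    unfold rr
    rw [norm_div, norm_one]
    apply one_div_le_one_div_of_le
    · have := den_norm hl hz t 0
      linarith
    · refine le_trans ?_ hD
      unfold den
      have e : (t : ℂ) + ((0 : ℝ) : ℂ) - lam * Complex.I - z =
          (t : ℂ) - lam * Complex.I - z := by
        push_cast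
        ring
      rw [e]
      have h1 := norm_sub_le ((t : ℂ) - lam * Complex.I) z
      have h2 := norm_sub_le (t : ℂ) (lam * Complex.I)
      have h3 : ‖(lam : ℂ) * Complex.I‖ = lam := by
        rw [norm_mul, Complex.norm_I, mul_one, Complex.norm_real, Real.norm_eq_abs,
          abs_of_pos hl]
      have h4 : ‖(t : ℂ)‖ = |t| := by
        rw [Complex.norm_real, Real.norm_eq_abs]
      linarith
  have h2 : 1 / D ^ 2 ≤ ‖rr lam z t 0‖ ^ 2 := by
    have h3 := pow_le_pow_left₀ (by positivity) h1 2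
    rw [one_div, inv_pow, ← one_div] at h3
    exact h3
  have h4 : 4 * lam * z.im / D ^ 2 = 4 * lam * z.im * (1 / D ^ 2) := by ring
  rw [h4]
  nlinarith [mul_le_mul_of_nonneg_left h2 (mul_nonneg (mul_nonneg (by norm_num : (0:ℝ) ≤ 4) hl.le) hz)]

theorem main : S_CON := by
  intro ρ _ C _ hρ lam hl z hz
  refine ⟨uf_cont hl hz ρ, uf_le_one hl hz ρ, fun s hs => ⟨inferInstance, conv_supp hs ρ hρ,
    uf_conv hl hz ρ s, fun t D hD => gap hl hz ρ C hρ s t D hs hD⟩,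
    fun t D hD => dirac_gap hl hz t D hD, uf_lip_t hl hz ρ, fun t z' hz' => ?_⟩
  have h := uf_lip hl hz hz' ρ t t
  rw [sub_self, Complex.ofReal_zero, zero_add] at h
  exact h

end

end Pool.Agent.W52.LL.Conv
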