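import Mathlib
import Pool.Agent.W792.LL.Stm

set_option autoImplicit false

/-! Task LL-AVG: averaging for the symbols used, uniformly in the parameters. -/

namespace Pool.Agent.W52.LL.Avg

open MeasureTheory Set Filter
open Pool.Agent.W792.LL
open UnitAddTorus

noncomputable section

attribute [local instance] instMeasureSpaceUnitAddCircle

local instance haar_prob : IsProbabilityMeasure (volume : Measure UnitAddCircle) :=
  inferInstanceAs (IsProbabilityMeasure (AddCircle.haarAddCircle (T := 1)))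

variable {d : ℕ}

/-- the compact space -/
abbrev XX (d : ℕ) := UnitAddTorus (Fin d) × UnitAddCircle

theorem integrable_of_cont (f : UnitAddTorus (Fin d) → ℂ) (hf : Continuous f) :
    Integrable f :=
  hf.integrable_of_hasCompactSupport (HasCompactSupport.of_compactSpace f)

theorem coeff_sub (f g : UnitAddTorus (Fin d) → ℂ) (hf : Continuous f) (hg : Continuous g)
    (x : Fin d → ℤ) :
    mFourierCoeff f x - mFourierCoeff g x = mFourierCoeff (fun k => f k - g k) x := by
  unfold mFourierCoeff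
  rw [← integral_sub]
  · refine integral_congr_ae (Eventually.of_forall fun k => ?_)
    exact (smul_sub _ _ _).symm
  · exact integrable_of_cont _ ((mFourier (-x)).continuous.smul hf)
  · exact integrable_of_cont _ ((mFourier (-x)).continuous.smul hg)

theorem coeff_norm (f : UnitAddTorus (Fin d) → ℂ) (C : ℝ) (hC : ∀ k, ‖f k‖ ≤ C)
    (x : Fin d → ℤ) : ‖mFourierCoeff f x‖ ≤ C := by
  unfold mFourierCoeff
  have h := norm_integral_le_of_norm_le_const (μ := (volume : Measure (UnitAddTorus (Fin d))))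
    (f := fun k => mFourier (-x) k • f k) (C := C) (Eventually.of_forall fun k => by
      rw [norm_smul]
      have h1 : ‖mFourier (-x) k‖ ≤ 1 :=
        (ContinuousMap.norm_coe_le_norm _ k).trans (le_of_eq mFourier_norm)
      calc ‖mFourier (-x) k‖ * ‖f k‖ ≤ 1 * C :=
            mul_le_mul h1 (hC k) (norm_nonneg _) zero_le_one
        _ = C := one_mul C)
  simpa using h

/-- the averaged difference -/
def av (F : XX d → ℂ) (M : ℕ) (k : UnitAddTorus (Fin d)) : ℂ :=
  F (k, ((M * lap d k / (2 * Real.pi) : ℝ) : UnitAddCircle)) -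
    ∫ φ in Set.Ioc (0 : ℝ) 1, F (k, (φ : UnitAddCircle))

theorem circ_cont : Continuous (fun φ : ℝ => (φ : UnitAddCircle)) := AddCircle.continuous_mk' 1

theorem int_cont (F : XX d → ℂ) (hF : Continuous F) :
    Continuous fun k => ∫ φ in Set.Ioc (0 : ℝ) 1, F (k, (φ : UnitAddCircle)) := by
  have h1 : Continuous (Function.uncurry fun (k : UnitAddTorus (Fin d)) (φ : ℝ) =>
      F (k, (φ : UnitAddCircle))) := by
    refine hF.comp ?_
    exact continuous_fst.prodMk (circ_cont.comp continuous_snd)
  have h2 := continuous_parametric_integral_of_continuous (μ := volume) h1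
    (isCompact_Icc (a := (0 : ℝ)) (b := 1))
  refine h2.congr fun k => ?_
  exact integral_Icc_eq_integral_Ioc

theorem av_cont (F : XX d → ℂ) (hF : Continuous F) (M : ℕ) : Continuous (av F M) := by
  unfold av
  refine Continuous.sub (hF.comp ?_) (int_cont F hF)
  refine continuous_id.prodMk (circ_cont.comp ?_)
  exact (continuous_const.mul (lap d).continuous).div_const _

theorem av_sub_norm (F G : XX d → ℂ) (hF : Continuous F) (hG : Continuous G) (M : ℕ) (e : ℝ)
    (h : ∀ p, ‖F p - G p‖ ≤ e) (k : UnitAddTorus (Fin d)) :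
    ‖av F M k - av G M k‖ ≤ 2 * e := by
  unfold av
  have hFi : IntegrableOn (fun φ : ℝ => F (k, (φ : UnitAddCircle))) (Set.Ioc 0 1) :=
    Continuous.integrableOn_Ioc (hF.comp (continuous_const.prodMk circ_cont))
  have hGi : IntegrableOn (fun φ : ℝ => G (k, (φ : UnitAddCircle))) (Set.Ioc 0 1) :=
    Continuous.integrableOn_Ioc (hG.comp (continuous_const.prodMk circ_cont))
  have h1 : ‖(∫ φ in Set.Ioc (0 : ℝ) 1, F (k, (φ : UnitAddCircle))) -
      ∫ φ in Set.Ioc (0 : ℝ) 1, G (k, (φ : UnitAddCircle))‖ ≤ e := by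
    rw [← integral_sub hFi hGi]
    have h2 := norm_setIntegral_le_of_norm_le_const (μ := volume) (s := Set.Ioc (0 : ℝ) 1)
      (f := fun φ : ℝ => F (k, (φ : UnitAddCircle)) - G (k, (φ : UnitAddCircle))) (C := e)
      (by simp) (fun φ _ => h _)
    simpa using h2
  have h3 := h (k, ((M * lap d k / (2 * Real.pi) : ℝ) : UnitAddCircle))
  set a := F (k, ((M * lap d k / (2 * Real.pi) : ℝ) : UnitAddCircle))
  set b := G (k, ((M * lap d k / (2 * Real.pi) : ℝ) : UnitAddCircle))
  set i := ∫ φ in Set.Ioc (0 : ℝ) 1, F (k, (φ : UnitAddCircle))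
  set j := ∫ φ in Set.Ioc (0 : ℝ) 1, G (k, (φ : UnitAddCircle))
  have e1 : a - i - (b - j) = (a - b) - (i - j) := by ring
  rw [e1]
  have h4 := norm_sub_le (a - b) (i - j)
  linarith

/-- the energy plus the oscillating term -/
def HH (K : C(UnitAddTorus (Fin d), ℝ)) (s : ℝ) (p : XX d) : ℝ :=
  K p.1 + s * (fourier 1 p.2).re

theorem HH_cont (K : C(UnitAddTorus (Fin d), ℝ)) (s : ℝ) : Continuous (HH K s) := by
  unfold HH
  fun_prop

theorem HH_apply (K : C(UnitAddTorus (Fin d), ℝ)) (s : ℝ) (k : UnitAddTorus (Fin d)) (φ : ℝ) :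
    HH K s (k, (φ : UnitAddCircle)) = K k + s * Real.cos (2 * Real.pi * φ) := by
  unfold HH
  have h : (fourier 1 ((φ : ℝ) : UnitAddCircle)) =
      Complex.exp (((2 * Real.pi * φ : ℝ) : ℂ) * Complex.I) := by
    rw [fourier_coe_apply]
    congr 1
    push_cast
    ring
  change K k + s * (fourier 1 ((φ : ℝ) : UnitAddCircle)).re = _
  rw [h, Complex.exp_ofReal_mul_I_re]

theorem compact (K : C(UnitAddTorus (Fin d), ℝ)) (s L : ℝ) (hL : 0 < L) :
    TotallyBounded {F : BoundedContinuousFunction (XX d) ℂ | ∃ U : ℝ → ℂ, (∀ t, ‖U t‖ ≤ 1) ∧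
      (∀ t t', ‖U t - U t'‖ ≤ L * |t - t'|) ∧ ∀ p, F p = U (HH K s p)} := by
  refine (IsCompact.totallyBounded ?_).subset subset_closure
  refine BoundedContinuousFunction.arzela_ascoli (Metric.closedBall (0 : ℂ) 1)
    (isCompact_closedBall 0 1) _ ?_ ?_
  · rintro F p ⟨U, hU1, _, hF⟩
    rw [mem_closedBall_zero_iff, hF]
    exact hU1 _
  · intro x₀
    rw [Metric.equicontinuousAt_iff_right]
    intro ε hε
    have hc := (HH_cont K s).continuousAt (x := x₀)
    have h1 : ∀ᶠ x in nhds x₀, dist (HH K s x) (HH K s x₀) < ε / L :=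
      Metric.tendsto_nhds.1 hc (ε / L) (by positivity)
    filter_upwards [h1] with x hx
    rintro ⟨F, U, _, hU2, hF⟩
    change dist (F x₀) (F x) < ε
    rw [hF, hF, dist_eq_norm]
    refine (hU2 _ _).trans_lt ?_
    rw [dist_comm, Real.dist_eq, lt_div_iff₀ hL] at hx
    linarith

theorem toC_apply {X : Type} [TopologicalSpace X] (f : X → ℂ) (h : Continuous f) (x : X) :
    toC f x = f x := by
  unfold toC
  rw [dif_pos h]
  rfl

theorem main : S_AVG0 → S_CON → S_AVG := by
  intro hA hcon d hd K s C B l₁ l₂ δ hs hC _ hl₁ hδ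
  obtain ⟨T, hTf, hT⟩ := Metric.totallyBounded_iff.1 (compact K s (2 / l₁) (by positivity))
    (δ / 4) (by positivity)
  choose M₀ hM₀ using fun y : BoundedContinuousFunction (XX d) ℂ =>
    hA d hd y.toContinuousMap (δ / 2) (by positivity)
  refine ⟨hTf.toFinset.sup M₀, fun M hM ρ _ hρ lam hl1 _ z _ hz _ x => ?_⟩
  have hlam : 0 < lam := by linarith
  obtain ⟨hc, hb, hconv, _, hlip, _⟩ := hcon ρ C hC hρ lam hlam z hz
  obtain ⟨hp, hsup, hform, _⟩ := hconv s hs
  obtain ⟨hc', _⟩ := hcon ((arc s).conv ρ) (s + C) (by linarith) hsup lam hlam z hz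
  -- the function on the product
  have hFc : Continuous fun p => uf ρ lam z (HH K s p) := hc.comp (HH_cont K s)
  set F : BoundedContinuousFunction (XX d) ℂ :=
    BoundedContinuousFunction.mkOfCompact ⟨fun p => uf ρ lam z (HH K s p), hFc⟩ with hF
  have hFa : ∀ p, F p = uf ρ lam z (HH K s p) := fun p => rfl
  have hmem := hT (show F ∈ _ from ⟨uf ρ lam z, hb, fun t t' => (hlip t t').trans (by
    refine mul_le_mul_of_nonneg_right ?_ (abs_nonneg _)
    exact div_le_div_of_nonneg_left (by norm_num) hl₁ hl1), hFa⟩)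
  rw [Set.mem_iUnion₂] at hmem
  obtain ⟨y, hyT, hy⟩ := hmem
  have hyM : M₀ y ≤ M := le_trans (Finset.le_sup (hTf.mem_toFinset.2 hyT)) hM
  have h1 := hM₀ y M hyM x
  have h2 : ∀ p, ‖F p - y p‖ ≤ δ / 4 := by
    intro p
    rw [← dist_eq_norm]
    exact (BoundedContinuousFunction.dist_coe_le_dist p).trans (le_of_lt hy)
  have hFcont : Continuous (F : XX d → ℂ) := F.continuous
  have hycont : Continuous (y : XX d → ℂ) := y.continuous
  have e1 : mFourierCoeff (us ρ lam z (addOsc K s M)) x -
      mFourierCoeff (us ((arc s).conv ρ) lam z K) x = mFourierCoeff (av F M) x := by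
    rw [coeff_sub _ _ (ContinuousMap.continuous _) (ContinuousMap.continuous _)]
    congr 1
    funext k
    unfold us av
    have q1 : Continuous fun k => uf ρ lam z (addOsc K s M k) :=
      hc.comp (ContinuousMap.continuous _)
    have q2 : Continuous fun k => uf ((arc s).conv ρ) lam z (K k) :=
      hc'.comp (ContinuousMap.continuous _)
    rw [toC_apply _ q1, toC_apply _ q2, hform, hFa, HH_apply]
    congr 1
    · congr 1
      change K k + s * Real.cos (M * lap d k) = _
      congr 3
      field_simp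
    · refine setIntegral_congr_fun measurableSet_Ioc fun φ _ => ?_
      change _ = F (k, (φ : UnitAddCircle))
      rw [hFa, HH_apply]
  rw [e1]
  have e2 : ‖mFourierCoeff (av F M) x - mFourierCoeff (av y M) x‖ ≤ 2 * (δ / 4) := by
    rw [coeff_sub _ _ (av_cont F hFcont M) (av_cont y hycont M)]
    exact coeff_norm _ _ (fun k => av_sub_norm F y hFcont hycont M (δ / 4) h2 k) x
  have h3 : ‖mFourierCoeff (av y M) x‖ ≤ δ / 2 := h1
  have h4 : mFourierCoeff (av F M) x =
      (mFourierCoeff (av F M) x - mFourierCoeff (av y M) x) + mFourierCoeff (av y M) x := by ring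
  rw [h4]
  have h5 := norm_add_le (mFourierCoeff (av F M) x - mFourierCoeff (av y M) x)
    (mFourierCoeff (av y M) x)
  linarith

end

end Pool.Agent.W52.LL.Avg
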